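import Mathlib

/-!
Basic facts on real trigonometric polynomials, given as a span.
-/

open Real MeasureTheory

namespace Pool.Agent.V1191.TQ

/-- Real trigonometric polynomials of degree at most `n`. -/
noncomputable def trigPoly (n : ℕ) : Submodule ℝ (ℝ → ℝ) :=
  Submodule.span ℝ
    ({f | ∃ k : ℕ, k ≤ n ∧ f = fun θ : ℝ => Real.cos (k * θ)} ∪
     {f | ∃ k : ℕ, k ≤ n ∧ f = fun θ : ℝ => Real.sin (k * θ)})

theorem cos_mem {n k : ℕ} (h : k ≤ n) : (fun θ : ℝ => Real.cos (k * θ)) ∈ trigPoly n :=
  Submodule.subset_span (Or.inl ⟨k, h, rfl⟩)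

theorem sin_mem {n k : ℕ} (h : k ≤ n) : (fun θ : ℝ => Real.sin (k * θ)) ∈ trigPoly n :=
  Submodule.subset_span (Or.inr ⟨k, h, rfl⟩)

theorem one_mem (n : ℕ) : (fun _ : ℝ => (1 : ℝ)) ∈ trigPoly n := by
  have := cos_mem (n := n) (Nat.zero_le n)
  simpa using this

theorem const_mem (n : ℕ) (c : ℝ) : (fun _ : ℝ => c) ∈ trigPoly n := by
  have := (trigPoly n).smul_mem c (one_mem n)
  convert this using 1
  ext x; simp

theorem mono {m n : ℕ} (h : m ≤ n) : trigPoly m ≤ trigPoly n := by
  apply Submodule.span_mono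
  rintro f (⟨k, hk, rfl⟩ | ⟨k, hk, rfl⟩)
  · exact Or.inl ⟨k, hk.trans h, rfl⟩
  · exact Or.inr ⟨k, hk.trans h, rfl⟩

theorem cos_mul_mem {n : ℕ} {p : ℝ → ℝ} (hp : p ∈ trigPoly n) :
    (fun θ => Real.cos θ * p θ) ∈ trigPoly (n + 1) := by
  induction hp using Submodule.span_induction with
  | mem f hf =>
    rcases hf with (⟨k, hk, rfl⟩ | ⟨k, hk, rfl⟩)
    · rcases Nat.eq_zero_or_pos k with rfl | hk0
      · have := cos_mem (n := n + 1) (k := 1) (by omega)
        simpa using this
      · obtain ⟨j, rfl⟩ : ∃ j, k = j + 1 := ⟨k - 1, by omega⟩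
        have h1 := cos_mem (n := n + 1) (k := j + 2) (by omega)
        have h2 := cos_mem (n := n + 1) (k := j) (by omega)
        have h3 := (trigPoly (n + 1)).smul_mem (1 / 2 : ℝ) ((trigPoly (n + 1)).add_mem h1 h2)
        convert h3 using 1
        ext θ
        simp only [Pi.smul_apply, Pi.add_apply, smul_eq_mul]
        push_cast
        have e1 : ((j : ℝ) + 2) * θ = ((j : ℝ) + 1) * θ + θ := by ring
        have e2 : (j : ℝ) * θ = ((j : ℝ) + 1) * θ - θ := by ring
        rw [e1, e2, Real.cos_add, Real.cos_sub]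
        ring
    · rcases Nat.eq_zero_or_pos k with rfl | hk0
      · have := (trigPoly (n + 1)).zero_mem
        convert this using 1
        ext θ; simp
      · obtain ⟨j, rfl⟩ : ∃ j, k = j + 1 := ⟨k - 1, by omega⟩
        have h1 := sin_mem (n := n + 1) (k := j + 2) (by omega)
        have h2 := sin_mem (n := n + 1) (k := j) (by omega)
        have h3 := (trigPoly (n + 1)).smul_mem (1 / 2 : ℝ) ((trigPoly (n + 1)).add_mem h1 h2)
        convert h3 using 1
        ext θ
        simp only [Pi.smul_apply, Pi.add_apply, smul_eq_mul]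
        push_cast
        have e1 : ((j : ℝ) + 2) * θ = ((j : ℝ) + 1) * θ + θ := by ring
        have e2 : (j : ℝ) * θ = ((j : ℝ) + 1) * θ - θ := by ring
        rw [e1, e2, Real.sin_add, Real.sin_sub]
        ring
  | zero =>
    have := (trigPoly (n + 1)).zero_mem
    convert this using 1
    ext θ; simp
  | add f g hf hg ihf ihg =>
    have := (trigPoly (n + 1)).add_mem ihf ihg
    convert this using 1
    ext θ; simp [mul_add]
  | smul a f hf ihf =>
    have := (trigPoly (n + 1)).smul_mem a ihf
    convert this using 1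
    ext θ; simp; ring

theorem cos_pow_mem (n : ℕ) : (fun θ => Real.cos θ ^ n) ∈ trigPoly n := by
  induction n with
  | zero => simpa using one_mem 0
  | succ n ih =>
    have := cos_mul_mem ih
    convert this using 1
    ext θ; ring

theorem polyCos_mem (P : Polynomial ℝ) {n : ℕ} (h : P.natDegree ≤ n) :
    (fun θ => P.eval (Real.cos θ)) ∈ trigPoly n := by
  have e : (fun θ => P.eval (Real.cos θ)) =
      ∑ i ∈ Finset.range (n + 1), P.coeff i • (fun θ => Real.cos θ ^ i) := by
    ext θ
    rw [Polynomial.eval_eq_sum_range' (n := n + 1) (by omega)]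
    simp
  rw [e]
  apply Submodule.sum_mem
  intro i hi
  apply Submodule.smul_mem
  exact mono (by have := Finset.mem_range.mp hi; omega) (cos_pow_mem i)

theorem continuous_of_mem {n : ℕ} {p : ℝ → ℝ} (hp : p ∈ trigPoly n) : Continuous p := by
  induction hp using Submodule.span_induction with
  | mem f hf =>
    rcases hf with (⟨k, hk, rfl⟩ | ⟨k, hk, rfl⟩)
    · fun_prop
    · fun_prop
  | zero => exact continuous_const
  | add f g hf hg ihf ihg => exact ihf.add ihg
  | smul a f hf ihf => exact continuous_const.smul ihf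

end Pool.Agent.V1191.TQ
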